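import Pool.Agent.H20.PT.Chain

/-!
# Orbits with short returns are uniformly hyperbolic: `S_DICH` from `S_CONTR`, `S_LF`, `S_HYP1`
-/

set_option autoImplicit false
set_option linter.unusedSectionVars false

open Filter Set Metric Topology

universe u

namespace Pool.Agent.H22.PTD

open Pool.Agent.H20.PT

variable {X : Type u} {E : Type} [NormedAddCommGroup E] [NormedSpace ℝ E]

theorem ETr.append {S : CSys X E} {x y z : X} {m n : ℕ} {P Q : E ≃L[ℝ] E} (h : ETr S x y m P)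
    (h' : ETr S y z n Q) : ETr S x z (m + n) (Q * P) := by
  induction h' with
  | nil => simpa using h
  | cons h1 hs ih =>
    rw [mul_assoc]
    exact ETr.cons ih hs

theorem fw_etr (S : CSys X E) (x : ℤ → X) (hx : ∀ i, S.step (x i) (x (i + 1))) (a : ℤ) (m : ℕ) :
    ETr S (x a) (x (a + m)) m (S.fw x a m) := by
  induction m with
  | zero =>
    have h := ETr.nil (S := S) (x a)
    have h1 : a + ((0 : ℕ) : ℤ) = a := by simp
    rw [h1]
    exact h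
  | succ m ih =>
    have h1 : a + ((m + 1 : ℕ) : ℤ) = a + m + 1 := by push_cast; ring
    rw [h1]
    exact ETr.cons ih (hx _)

theorem fw_add (S : CSys X E) (x : ℤ → X) (a : ℤ) (m k : ℕ) :
    S.fw x a (m + k) = S.fw x (a + m) k * S.fw x a m := by
  induction k with
  | zero => rw [CSys.fw, one_mul]; rfl
  | succ k ih =>
    show S.A (x (a + ((m + k : ℕ) : ℤ))) (x (a + ((m + k : ℕ) : ℤ) + 1)) * S.fw x a (m + k) =
      (S.A (x (a + m + k)) (x (a + m + k + 1)) * S.fw x (a + m) k) * S.fw x a m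
    rw [ih, mul_assoc]
    have h1 : a + ((m + k : ℕ) : ℤ) = a + m + k := by push_cast; ring
    rw [h1]

theorem main (hCONTR : S_CONTR.{u}) (hLF : S_LF.{u}) (hHYP : S_HYP1) : S_DICH.{u} := by
  intro X E _ _ _ S κ hκ hκ1 hNC ℓ
  obtain ⟨K, hK1, hK⟩ := hHYP E (κ / 4) (by positivity)
  obtain ⟨C', hC', hcontr⟩ := hCONTR X E S κ hκ hκ1 hNC ℓ
  set θ : ℝ := 1 + κ / 4 with hθ
  have hθ1 : 1 < θ := by rw [hθ]; linarith
  have hθ0 : 0 < θ := by linarith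
  have hCK : K ≤ C' * K := by nlinarith
  refine ⟨C' * K, θ⁻¹, by nlinarith, by positivity, inv_lt_one_of_one_lt₀ hθ1, ?_⟩
  intro x hx hret
  -- the closed chains
  choose nr Mr hn1 hn2 hM using fun J : ℕ => hret (-(J : ℤ)) J (by omega)
  set MJ : ℕ → (E ≃L[ℝ] E) := fun J => S.fw x (-(J : ℤ)) J * (Mr J * S.fw x 0 J) with hMJ
  have e1 : ∀ J : ℕ, ETr S (x 0) (x J) J (S.fw x 0 J) := by
    intro J
    have h := fw_etr S x hx 0 J
    rwa [zero_add] at h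
  have e2 : ∀ J : ℕ, ETr S (x (-(J : ℤ))) (x 0) J (S.fw x (-(J : ℤ)) J) := by
    intro J
    have h := fw_etr S x hx (-(J : ℤ)) J
    rwa [neg_add_cancel] at h
  have e3 : ∀ J : ℕ, ETr S (x 0) (x 0) (J + nr J + J) (MJ J) := fun J =>
    ETr.append (ETr.append (e1 J) (hM J)) (e2 J)
  have hsp : ∀ J : ℕ, IsCompl (Es (MJ J)) (Eu (MJ J)) ∧
      (∀ s ∈ Es (MJ J), ∀ u ∈ Eu (MJ J), ‖s‖ ≤ K * ‖s + u‖ ∧ ‖u‖ ≤ K * ‖s + u‖) := by
    intro J
    have h1 := (hLF X E S κ hκ hκ1 hNC (x 0)).good _ _ (e3 J) (by have := hn1 J; omega)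
    obtain ⟨h2, h3, -⟩ := hK (θ ^ (J + nr J + J)) (MJ J)
      (one_lt_pow₀ hθ1 (by have := hn1 J; omega)) h1
    exact ⟨h2, h3⟩
  -- contraction on the stable spaces
  have hcs : ∀ J m : ℕ, m ≤ J → ∀ v ∈ Es (MJ J), ‖S.fw x 0 m v‖ ≤ C' * θ⁻¹ ^ m * ‖v‖ := by
    intro J m hm v hv
    obtain ⟨l, R, hl1, hl2, hR⟩ := hret 0 m (by positivity)
    obtain ⟨k, rfl⟩ := Nat.exists_eq_add_of_le hm
    have h4 : ETr S (x (m : ℤ)) (x ((m + k : ℕ) : ℤ)) k (S.fw x m k) := by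
      have h := fw_etr S x hx (m : ℤ) k
      have h1 : ((m + k : ℕ) : ℤ) = (m : ℤ) + k := by push_cast; ring
      rw [h1]
      exact h
    have h5 : ETr S (x (m : ℤ)) (x 0) (k + nr (m + k) + (m + k))
        (S.fw x (-((m + k : ℕ) : ℤ)) (m + k) * (Mr (m + k) * S.fw x m k)) :=
      ETr.append (ETr.append h4 (hM (m + k))) (e2 (m + k))
    have h6 : (S.fw x (-((m + k : ℕ) : ℤ)) (m + k) * (Mr (m + k) * S.fw x m k)) * S.fw x 0 m =
        MJ (m + k) := by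
      rw [hMJ]
      simp only
      rw [fw_add S x 0 m k, zero_add, mul_assoc, mul_assoc]
    have h7 := (hcontr (x 0) (x m) m (k + nr (m + k) + (m + k)) l (S.fw x 0 m) _ R (e1 m) h5 hR
      hl1 hl2 (by have := hn1 (m + k); omega)).1
    rw [h6] at h7
    exact h7 v hv
  have hcu : ∀ J m : ℕ, m ≤ J → ∀ v ∈ Eu (MJ J), ‖(S.fw x (-(m : ℤ)) m)⁻¹ v‖ ≤ C' * θ⁻¹ ^ m * ‖v‖ := by
    intro J m hm v hv
    obtain ⟨l, R, hl1, hl2, hR⟩ := hret (-(m : ℤ)) 0 (by simp)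
    obtain ⟨k, rfl⟩ := Nat.exists_eq_add_of_le' hm
    have h4 : ETr S (x (-((k + m : ℕ) : ℤ))) (x (-(m : ℤ))) k (S.fw x (-((k + m : ℕ) : ℤ)) k) := by
      have h := fw_etr S x hx (-((k + m : ℕ) : ℤ)) k
      have h1 : -((k + m : ℕ) : ℤ) + k = -(m : ℤ) := by push_cast; ring
      rwa [h1] at h
    have h5 : ETr S (x 0) (x (-(m : ℤ))) ((k + m) + nr (k + m) + k)
        (S.fw x (-((k + m : ℕ) : ℤ)) k * (Mr (k + m) * S.fw x 0 (k + m))) :=
      ETr.append (ETr.append (e1 (k + m)) (hM (k + m))) h4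
    have h6 : S.fw x (-(m : ℤ)) m *
        (S.fw x (-((k + m : ℕ) : ℤ)) k * (Mr (k + m) * S.fw x 0 (k + m))) = MJ (k + m) := by
      rw [hMJ]
      simp only
      rw [fw_add S x (-((k + m : ℕ) : ℤ)) k m, ← mul_assoc]
      have h1 : -((k + m : ℕ) : ℤ) + k = -(m : ℤ) := by push_cast; ring
      rw [h1]
    have h7 := (hcontr (x (-(m : ℤ))) (x 0) m ((k + m) + nr (k + m) + k) l (S.fw x (-(m : ℤ)) m) _ R
      (e2 m) h5 hR hl1 hl2 (by have := hn1 (k + m); omega)).2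
    rw [h6] at h7
    exact h7 v hv
  -- the projections
  have hproj : ∀ J : ℕ, ∃ P : E →L[ℝ] E, P ∘L P = P ∧ ‖P‖ ≤ K ∧ (∀ v, P v ∈ Es (MJ J)) ∧
      (∀ v, v - P v ∈ Eu (MJ J)) ∧ (∀ v, ‖v - P v‖ ≤ K * ‖v‖) := by
    intro J
    obtain ⟨hc, hb⟩ := hsp J
    set P : E →L[ℝ] E := LinearMap.toContinuousLinearMap
      ((Es (MJ J)).subtype ∘ₗ Submodule.projectionOnto (Es (MJ J)) (Eu (MJ J)) hc) with hP
    have hPA : ∀ v, P v ∈ Es (MJ J) := fun v => by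
      rw [hP]
      exact (Submodule.projectionOnto (Es (MJ J)) (Eu (MJ J)) hc v).2
    have hPa : ∀ a ∈ Es (MJ J), P a = a := fun a ha => by
      have := Submodule.projectionOnto_apply_left hc ⟨a, ha⟩
      rw [hP]
      exact congrArg Subtype.val this
    have hPB : ∀ v, v - P v ∈ Eu (MJ J) := fun v => by
      have h0 : P (v - P v) = 0 := by rw [map_sub, hPa _ (hPA v), sub_self]
      have h1 : Submodule.projectionOnto (Es (MJ J)) (Eu (MJ J)) hc (v - P v) = 0 := by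
        apply Subtype.ext
        exact h0
      rwa [Submodule.projectionOnto_apply_eq_zero_iff] at h1
    have hv : ∀ v, P v + (v - P v) = v := fun v => by abel
    refine ⟨P, ?_, ?_, hPA, hPB, ?_⟩
    · ext v
      exact hPa _ (hPA v)
    · refine ContinuousLinearMap.opNorm_le_bound _ (by linarith) (fun v => ?_)
      have h2 := (hb _ (hPA v) _ (hPB v)).1
      rwa [hv] at h2
    · intro v
      have h2 := (hb _ (hPA v) _ (hPB v)).2
      rwa [hv] at h2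
  choose Pi h1 h2 h3 h4 h5 using hproj
  have : ProperSpace (E →L[ℝ] E) := FiniteDimensional.proper ℝ _
  obtain ⟨P, -, φ, hφ, hlim⟩ := (isCompact_closedBall (0 : E →L[ℝ] E) K).tendsto_subseq
    (x := Pi) (fun J => by simpa using h2 J)
  have hlimv : ∀ v, Tendsto (fun J => Pi (φ J) v) atTop (𝓝 (P v)) := fun v =>
    ((ContinuousLinearMap.apply ℝ E v).continuous.tendsto P).comp hlim
  refine ⟨P, ?_, ?_, ?_⟩
  · have hc : Continuous (fun Q : E →L[ℝ] E => Q ∘L Q) := by fun_prop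
    have h6 : Tendsto (fun J => Pi (φ J) ∘L Pi (φ J)) atTop (𝓝 (P ∘L P)) := (hc.tendsto P).comp hlim
    have h7 : Tendsto (fun J => Pi (φ J) ∘L Pi (φ J)) atTop (𝓝 P) := hlim.congr (fun J => (h1 _).symm)
    exact tendsto_nhds_unique h6 h7
  · exact (le_of_tendsto' hlim.norm (fun J => h2 _)).trans hCK
  · intro m v
    have hev : ∀ᶠ J in atTop, m ≤ φ J := (hφ.tendsto_atTop).eventually_ge_atTop m
    constructor
    · have h6 : Tendsto (fun J => ‖S.fw x 0 m (Pi (φ J) v)‖) atTop (𝓝 ‖S.fw x 0 m (P v)‖) :=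
        (((S.fw x 0 m).continuous.tendsto _).comp (hlimv v)).norm
      refine le_of_tendsto h6 (hev.mono (fun J hJ => ?_))
      refine (hcs _ m hJ _ (h3 _ v)).trans ?_
      have h7 : ‖Pi (φ J) v‖ ≤ K * ‖v‖ := (Pi (φ J)).le_of_opNorm_le (h2 _) v
      calc C' * θ⁻¹ ^ m * ‖Pi (φ J) v‖ ≤ C' * θ⁻¹ ^ m * (K * ‖v‖) := by gcongr
        _ = C' * K * θ⁻¹ ^ m * ‖v‖ := by ring
    · have h6 : Tendsto (fun J => ‖(S.fw x (-(m : ℤ)) m)⁻¹ (v - Pi (φ J) v)‖) atTop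
          (𝓝 ‖(S.fw x (-(m : ℤ)) m)⁻¹ (v - P v)‖) :=
        ((((S.fw x (-(m : ℤ)) m)⁻¹).continuous.tendsto _).comp (tendsto_const_nhds.sub (hlimv v))).norm
      refine le_of_tendsto h6 (hev.mono (fun J hJ => ?_))
      refine (hcu _ m hJ _ (h4 _ v)).trans ?_
      calc C' * θ⁻¹ ^ m * ‖v - Pi (φ J) v‖ ≤ C' * θ⁻¹ ^ m * (K * ‖v‖) := by gcongr; exact h5 _ v
        _ = C' * K * θ⁻¹ ^ m * ‖v‖ := by ring

end Pool.Agent.H22.PTD
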