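import Pool.Agent.H20.PT.Lin

/-!
# Uniform rates: `S_HYP1` from `S_DET` and `S_SPL`
-/

set_option autoImplicit false
set_option linter.unusedSectionVars false

open Filter Set Metric Topology

namespace Pool.Agent.H22.PT

open Pool.Agent.H20.PT

variable {E : Type} [NormedAddCommGroup E] [NormedSpace ℝ E]

theorem pow_add_apply (M : E ≃L[ℝ] E) (p q : ℕ) (v : E) : (M ^ (p + q)) v = (M ^ p) ((M ^ q) v) := by
  rw [pow_add]; rfl

theorem pow_inv_apply (M : E ≃L[ℝ] E) (p : ℕ) (v : E) : (M ^ p) ((M⁻¹ ^ p) v) = v := by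
  have h : M ^ p * M⁻¹ ^ p = 1 := by rw [inv_pow, mul_inv_cancel]
  have h2 := congrArg (fun T : E ≃L[ℝ] E => T v) h
  exact h2

theorem inv_pow_apply (M : E ≃L[ℝ] E) (p : ℕ) (v : E) : (M⁻¹ ^ p) ((M ^ p) v) = v := by
  have h : M⁻¹ ^ p * M ^ p = 1 := by rw [inv_pow, inv_mul_cancel]
  have h2 := congrArg (fun T : E ≃L[ℝ] E => T v) h
  exact h2

theorem pow_mem (M : E ≃L[ℝ] E) (p : ℕ) {v : E} (hv : v ∈ Es M) : (M ^ p) v ∈ Es M := by
  have h1 : Tendsto (fun q : ℕ => (M ^ q) v) atTop (𝓝 0) := hv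
  have h2 := h1.comp (tendsto_add_atTop_nat p)
  show Tendsto (fun q : ℕ => (M ^ q) ((M ^ p) v)) atTop (𝓝 0)
  refine h2.congr (fun q => ?_)
  simp only [Function.comp]
  rw [pow_add_apply]

/-- The abstract estimate. -/
theorem key [FiniteDimensional ℝ E] {η' K : ℝ}
    (hdet : ∀ X : E →L[ℝ] E, Tendsto (fun p : ℕ => X ^ p) atTop (𝓝 0) →
      (∀ v, η' * ‖v‖ ≤ ‖v - X v‖) → ‖X‖ ≤ K)
    {A B : Submodule ℝ E} (hAB : IsCompl A B) {K1 κ : ℝ} (hK1 : 0 < K1) (hκ : 0 < κ)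
    (hη' : η' = (K1 * (κ + 1))⁻¹)
    (hproj : ∀ a ∈ A, ∀ b ∈ B, ‖a‖ ≤ K1 * ‖a + b‖ ∧ ‖b‖ ≤ K1 * ‖a + b‖)
    (T : E →L[ℝ] E) (hT : ∀ a ∈ A, T a ∈ A)
    (hconv : ∀ a ∈ A, Tendsto (fun j : ℕ => (T ^ j) a) atTop (𝓝 0))
    (hlow : ∀ a ∈ A, ‖a‖ ≤ κ * ‖a - T a‖) : ∀ a ∈ A, ‖T a‖ ≤ K * ‖a‖ := by
  classical
  set P : E →L[ℝ] E := LinearMap.toContinuousLinearMap
    (A.subtype ∘ₗ Submodule.projectionOnto A B hAB) with hP
  have hPA : ∀ v, P v ∈ A := fun v => by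
    rw [hP]
    exact (Submodule.projectionOnto A B hAB v).2
  have hPa : ∀ a ∈ A, P a = a := fun a ha => by
    have := Submodule.projectionOnto_apply_left hAB ⟨a, ha⟩
    rw [hP]
    exact congrArg Subtype.val this
  have hPB : ∀ v, v - P v ∈ B := fun v => by
    have h0 : P (v - P v) = 0 := by rw [map_sub, hPa _ (hPA v), sub_self]
    have h1 : Submodule.projectionOnto A B hAB (v - P v) = 0 := by
      apply Subtype.ext
      exact h0
    rwa [Submodule.projectionOnto_apply_eq_zero_iff] at h1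
  set X : E →L[ℝ] E := T.comp P with hX
  have hXv : ∀ v, X v = T (P v) := fun v => rfl
  have hXj : ∀ j : ℕ, ∀ v, (X ^ (j + 1)) v = (T ^ (j + 1)) (P v) := by
    intro j
    induction j with
    | zero => intro v; simp [hXv]
    | succ j ih =>
      intro v
      rw [pow_succ X (j + 1), mul_apply_eq_comp, ih, hXv, hPa _ (hT _ (hPA v)),
        pow_succ T (j + 1), mul_apply_eq_comp]
  have hlim : Tendsto (fun p : ℕ => X ^ p) atTop (𝓝 0) := by
    obtain ⟨C, hC, hb⟩ := (Module.finBasis ℝ E).exists_opNorm_le (F := E)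
    rw [← tendsto_add_atTop_iff_nat 1, NormedAddGroup.tendsto_nhds_zero]
    intro ε hε
    have h1 : ∀ i, ∀ᶠ j : ℕ in atTop, ‖(X ^ (j + 1)) (Module.finBasis ℝ E i)‖ < ε / (2 * C) := by
      intro i
      have h2 := (hconv _ (hPA (Module.finBasis ℝ E i))).comp (tendsto_add_atTop_nat 1)
      have h3 := NormedAddGroup.tendsto_nhds_zero.1 h2 (ε / (2 * C)) (by positivity)
      refine h3.mono (fun j hj => ?_)
      rw [hXj]
      exact hj
    have h4 := eventually_all.2 h1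
    refine h4.mono (fun j hj => ?_)
    have h5 := hb (u := X ^ (j + 1)) (M := ε / (2 * C)) (by positivity) (fun i => (hj i).le)
    refine h5.trans_lt ?_
    have : C * (ε / (2 * C)) = ε / 2 := by field_simp
    rw [this]
    linarith
  have hbd : ∀ v, η' * ‖v‖ ≤ ‖v - X v‖ := by
    intro v
    have ha := hPA v
    have hb := hPB v
    have h1 : v - X v = (P v - T (P v)) + (v - P v) := by rw [hXv]; abel
    obtain ⟨h2, h3⟩ := hproj _ (A.sub_mem ha (hT _ ha)) _ hb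
    rw [← h1] at h2 h3
    have h4 : ‖v‖ ≤ ‖P v‖ + ‖v - P v‖ := by
      calc ‖v‖ = ‖P v + (v - P v)‖ := by congr 1; abel
        _ ≤ _ := norm_add_le _ _
    have h5 := hlow _ ha
    have h6 : ‖v‖ ≤ K1 * (κ + 1) * ‖v - X v‖ := by
      have : κ * ‖P v - T (P v)‖ ≤ κ * (K1 * ‖v - X v‖) := by gcongr
      nlinarith
    rw [hη', inv_mul_le_iff₀ (by positivity)]
    exact h6
  have hK := hdet X hlim hbd
  intro a ha
  have h7 := X.le_opNorm a
  rw [hXv, hPa _ ha] at h7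
  exact h7.trans (by gcongr)

theorem main (hDET : S_DET) (hSPL : S_SPL) : S_HYP1 := by
  intro E _ _ _ η hη
  set K1 : ℝ := η⁻¹ + 1 with hK1
  have hK1p : 0 < K1 := by positivity
  obtain ⟨K, hK⟩ := hDET E (K1 * (K1 + 1))⁻¹ (by positivity)
  refine ⟨max (max 1 K1) K, le_trans (le_max_left _ _) (le_max_left _ _), ?_⟩
  intro θ M hθ hgood
  have hθ0 : 0 < θ := by linarith
  obtain ⟨hc, hs, hu⟩ := hSPL E η θ hη hθ M hgood
  have hle1 : ∀ p : ℕ, θ⁻¹ ^ p ≤ 1 := fun p => pow_le_one₀ (by positivity) (inv_le_one_of_one_le₀ hθ.le)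
  have hge1 : ∀ p : ℕ, 1 ≤ θ ^ p := fun p => one_le_pow₀ hθ.le
  have hMs : ∀ v ∈ Es M, Tendsto (fun p : ℕ => (M ^ p) v) atTop (𝓝 0) := fun v hv => hv
  have hMu : ∀ v ∈ Eu M, Tendsto (fun p : ℕ => (M⁻¹ ^ p) v) atTop (𝓝 0) := fun v hv => hv
  have hproj0 : ∀ s ∈ Es M, ∀ u ∈ Eu M, η * ‖s‖ ≤ ‖s + u‖ := by
    intro s hs' u hu'
    have h1 : Tendsto (fun N : ℕ => η * ‖s - (M⁻¹ ^ (N + 1)) u‖) atTop (𝓝 (η * ‖s - 0‖)) :=
      ((tendsto_const_nhds.sub ((hMu u hu').comp (tendsto_add_atTop_nat 1))).norm).const_mul η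
    have h2 : Tendsto (fun N : ℕ => ‖s - (M⁻¹ ^ (N + 1)) u - (M ^ (N + 1)) s + u‖) atTop
        (𝓝 ‖s - 0 - 0 + u‖) :=
      (((tendsto_const_nhds.sub ((hMu u hu').comp (tendsto_add_atTop_nat 1))).sub
        ((hMs s hs').comp (tendsto_add_atTop_nat 1))).add tendsto_const_nhds).norm
    have h3 : ∀ N : ℕ, η * ‖s - (M⁻¹ ^ (N + 1)) u‖ ≤ ‖s - (M⁻¹ ^ (N + 1)) u - (M ^ (N + 1)) s + u‖ := by
      intro N
      have h4 := hgood (N + 1) (by omega) 1 (hle1 _) (hge1 _) (s - (M⁻¹ ^ (N + 1)) u)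
      rw [one_smul, map_sub, pow_inv_apply] at h4
      refine h4.trans (le_of_eq ?_)
      congr 1
      abel
    have h5 := le_of_tendsto_of_tendsto' h1 h2 h3
    simpa using h5
  have hproj : ∀ s ∈ Es M, ∀ u ∈ Eu M, ‖s‖ ≤ K1 * ‖s + u‖ ∧ ‖u‖ ≤ K1 * ‖s + u‖ := by
    intro s hs' u hu'
    have h1 := hproj0 s hs' u hu'
    have h2 : ‖s‖ ≤ η⁻¹ * ‖s + u‖ := by
      rw [← div_eq_inv_mul, le_div_iff₀ hη]
      linarith
    have h3 : ‖u‖ ≤ ‖s + u‖ + ‖s‖ := by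
      calc ‖u‖ = ‖(s + u) - s‖ := by congr 1; abel
        _ ≤ _ := norm_sub_le _ _
    have h4 := norm_nonneg (s + u)
    constructor
    · rw [hK1]; nlinarith
    · rw [hK1]; nlinarith
  have hKK : K ≤ max (max 1 K1) K := le_max_right _ _
  have hKK1 : K1 ≤ max (max 1 K1) K := le_trans (le_max_right _ _) (le_max_left _ _)
  refine ⟨hc, ?_, ?_, ?_⟩
  · intro s hs' u hu'
    obtain ⟨h1, h2⟩ := hproj s hs' u hu'
    exact ⟨h1.trans (by gcongr), h2.trans (by gcongr)⟩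
  · -- the stable space
    intro p hp s hs'
    have hpow : ∀ j : ℕ, ∀ v : E, ((θ ^ p • ((M ^ p : E ≃L[ℝ] E) : E →L[ℝ] E)) ^ j) v =
        θ ^ (p * j) • (M ^ (p * j)) v := by
      intro j
      induction j with
      | zero => intro v; simp; rfl
      | succ j ih =>
        intro v
        rw [pow_succ', mul_apply_eq_comp, ih, smul_apply]
        simp only [ContinuousLinearEquiv.coe_coe, map_smul]
        rw [← pow_add_apply, smul_smul, ← pow_add, show p * (j + 1) = p + p * j by ring]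
    have h1 := key hK hc hK1p hK1p rfl hproj (θ ^ p • ((M ^ p : E ≃L[ℝ] E) : E →L[ℝ] E)) ?_ ?_ ?_ s hs'
    · have h2 : θ ^ p * ‖(M ^ p) s‖ ≤ K * ‖s‖ := by
        have h3 : (θ ^ p • ((M ^ p : E ≃L[ℝ] E) : E →L[ℝ] E)) s = θ ^ p • (M ^ p) s := rfl
        rw [h3, norm_smul, Real.norm_of_nonneg (by positivity)] at h1
        exact h1
      have h4 : ‖(M ^ p) s‖ ≤ K * θ⁻¹ ^ p * ‖s‖ := by
        rw [inv_pow]
        have h5 : 0 < θ ^ p := by positivity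
        calc ‖(M ^ p) s‖ = (θ ^ p)⁻¹ * (θ ^ p * ‖(M ^ p) s‖) := by field_simp
          _ ≤ (θ ^ p)⁻¹ * (K * ‖s‖) := by gcongr
          _ = K * (θ ^ p)⁻¹ * ‖s‖ := by ring
      exact h4.trans (by gcongr)
    · intro a ha
      exact (Es M).smul_mem _ (pow_mem M p ha)
    · intro a ha
      have h2 := hs a ha
      have h3 : Tendsto (fun j : ℕ => p * j) atTop atTop :=
        tendsto_id.const_mul_atTop' (by omega)
      refine (h2.comp h3).congr (fun j => ?_)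
      rw [hpow]
      rfl
    · intro a ha
      have h2 := hgood p hp (θ ^ p) ((hle1 p).trans (hge1 p)) le_rfl a
      have h3 : ‖a‖ ≤ η⁻¹ * ‖a - θ ^ p • (M ^ p) a‖ := by
        rw [← div_eq_inv_mul, le_div_iff₀ hη]
        linarith
      have h4 : (θ ^ p • ((M ^ p : E ≃L[ℝ] E) : E →L[ℝ] E)) a = θ ^ p • (M ^ p) a := rfl
      rw [h4, hK1]
      nlinarith [norm_nonneg (a - θ ^ p • (M ^ p) a)]
  · -- the unstable space
    intro p hp s hs'
    have hpow : ∀ j : ℕ, ∀ v : E, ((θ ^ p • ((M⁻¹ ^ p : E ≃L[ℝ] E) : E →L[ℝ] E)) ^ j) v =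
        θ ^ (p * j) • (M⁻¹ ^ (p * j)) v := by
      intro j
      induction j with
      | zero => intro v; simp; rfl
      | succ j ih =>
        intro v
        rw [pow_succ', mul_apply_eq_comp, ih, smul_apply]
        simp only [ContinuousLinearEquiv.coe_coe, map_smul]
        rw [← pow_add_apply, smul_smul, ← pow_add, show p * (j + 1) = p + p * j by ring]
    have hproj' : ∀ a ∈ Eu M, ∀ b ∈ Es M, ‖a‖ ≤ K1 * ‖a + b‖ ∧ ‖b‖ ≤ K1 * ‖a + b‖ := by
      intro a ha b hb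
      obtain ⟨h1, h2⟩ := hproj b hb a ha
      rw [add_comm b a] at h1 h2
      exact ⟨h2, h1⟩
    have h1 := key hK hc.symm hK1p hK1p rfl hproj'
      (θ ^ p • ((M⁻¹ ^ p : E ≃L[ℝ] E) : E →L[ℝ] E)) ?_ ?_ ?_ s hs'
    · have h2 : θ ^ p * ‖(M⁻¹ ^ p) s‖ ≤ K * ‖s‖ := by
        have h3 : (θ ^ p • ((M⁻¹ ^ p : E ≃L[ℝ] E) : E →L[ℝ] E)) s = θ ^ p • (M⁻¹ ^ p) s := rfl
        rw [h3, norm_smul, Real.norm_of_nonneg (by positivity)] at h1
        exact h1
      have h4 : ‖(M⁻¹ ^ p) s‖ ≤ K * θ⁻¹ ^ p * ‖s‖ := by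
        rw [inv_pow θ]
        have h5 : 0 < θ ^ p := by positivity
        calc ‖(M⁻¹ ^ p) s‖ = (θ ^ p)⁻¹ * (θ ^ p * ‖(M⁻¹ ^ p) s‖) := by field_simp
          _ ≤ (θ ^ p)⁻¹ * (K * ‖s‖) := by gcongr
          _ = K * (θ ^ p)⁻¹ * ‖s‖ := by ring
      exact h4.trans (by gcongr)
    · intro a ha
      exact (Eu M).smul_mem _ (pow_mem M⁻¹ p ha)
    · intro a ha
      have h2 := hu a ha
      have h3 : Tendsto (fun j : ℕ => p * j) atTop atTop :=
        tendsto_id.const_mul_atTop' (by omega)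
      refine (h2.comp h3).congr (fun j => ?_)
      rw [hpow]
      rfl
    · intro a ha
      have h4 : (θ ^ p • ((M⁻¹ ^ p : E ≃L[ℝ] E) : E →L[ℝ] E)) a = θ ^ p • (M⁻¹ ^ p) a := rfl
      rw [h4]
      set y : E := θ ^ p • (M⁻¹ ^ p) a with hy
      have h2 := hgood p hp (θ⁻¹ ^ p) le_rfl ((hle1 p).trans (hge1 p)) y
      have h5 : θ⁻¹ ^ p • (M ^ p) y = a := by
        rw [hy, map_smul, pow_inv_apply, smul_smul, inv_pow, inv_mul_cancel₀ (by positivity), one_smul]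
      rw [h5] at h2
      have h6 : ‖y - a‖ = ‖a - y‖ := norm_sub_rev _ _
      rw [h6] at h2
      have h7 : ‖a‖ ≤ ‖a - y‖ + ‖y‖ := by
        calc ‖a‖ = ‖(a - y) + y‖ := by congr 1; abel
          _ ≤ _ := norm_add_le _ _
      have h3 : ‖y‖ ≤ η⁻¹ * ‖a - y‖ := by
        rw [← div_eq_inv_mul, le_div_iff₀ hη]
        linarith
      rw [hK1]
      nlinarith [norm_nonneg (a - y)]

end Pool.Agent.H22.PT
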