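import Pool.Agent.H20.PT.Skew
import Pool.Graph.R_seed8.H721R2.Riem

/-!
# Project PT3: no bounded orbits of vectors for extensions (`S_NOBX`)
-/

set_option autoImplicit false
set_option linter.unusedSectionVars false

open scoped Manifold ContDiff Topology
open Filter Set Metric Bundle

universe u v w

namespace Pool.Agent.H22.PTN

open Pool.Agent.H20.PT
open Pool.Agent.H718R2.G Pool.Agent.TH80.OMS Pool.Agent.Y504.CO Pool.Agent.R773.TE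
open Pool.Agent.H721R2 (IsTangentNorm dm tnm tnm_nonneg tnm_compare exists_uniform_const local_all
  iter_smooth)

/-- the tangent map of a `C¹` map between closed manifolds is bounded -/
theorem bnd_metric {n d : ℕ} {T : Type w} [MetricSpace T] [CompactSpace T] [ChartedSpace (V n) T]
    [IsManifold (𝓡 n) ∞ T] [IsManifold 𝓘(ℝ, V n) 1 T]
    {M : Type u} [MetricSpace M] [CompactSpace M] [ChartedSpace (V d) M]
    [IsManifold (𝓡 d) ∞ M] [IsManifold 𝓘(ℝ, V d) 1 M]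
    {NmT : TangentBundle 𝓘(ℝ, V n) T → ℝ} (hT : IsTangentNorm NmT)
    {NmM : TangentBundle 𝓘(ℝ, V d) M → ℝ} (hM : IsTangentNorm NmM) {pj : T → M}
    (hpj : ContMDiff 𝓘(ℝ, V n) 𝓘(ℝ, V d) 1 pj) :
    ∃ c : ℝ, 0 ≤ c ∧ ∀ (x : T) (v : V n),
      NmM ⟨pj x, mfderiv 𝓘(ℝ, V n) 𝓘(ℝ, V d) pj x v⟩ ≤ c * NmT ⟨x, v⟩ := by
  obtain ⟨m, e, he, -, hinj⟩ := exists_embedding_euclidean_of_compact (I := 𝓡 n) (M := T)
  obtain ⟨m', e', he', -, hinj'⟩ := exists_embedding_euclidean_of_compact (I := 𝓡 d) (M := M)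
  have he1 : ContMDiff 𝓘(ℝ, V n) 𝓘(ℝ, EuclideanSpace ℝ (Fin m)) 1 e := he.of_le (by simp)
  have he1' : ContMDiff 𝓘(ℝ, V d) 𝓘(ℝ, EuclideanSpace ℝ (Fin m')) 1 e' := he'.of_le (by simp)
  have hi : ∀ x, Function.Injective (dm (V n) e x) := hinj
  have hi' : ∀ x, Function.Injective (dm (V d) e' x) := hinj'
  obtain ⟨R, hR, hcmp⟩ := tnm_compare hT e he1 hi
  obtain ⟨R', hR', hcmp'⟩ := tnm_compare hM e' he1' hi'
  have hh : ContMDiff 𝓘(ℝ, V n) 𝓘(ℝ, EuclideanSpace ℝ (Fin m')) 1 (e' ∘ pj) := he1'.comp hpj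
  obtain ⟨C, hC, hb⟩ := exists_uniform_const (M := T)
    (fun C x => ∀ v : V n, ‖dm (V n) (e' ∘ pj) x v‖ ≤ C * ‖dm (V n) e x v‖)
    (fun C C' x hCC' h v => (h v).trans (mul_le_mul_of_nonneg_right hCC' (norm_nonneg _)))
    (fun x₀ => by
      obtain ⟨⟨C, hC, h1⟩, -⟩ := local_all e he1 hi (e' ∘ pj) hh x₀
      refine ⟨C * C, ?_⟩
      filter_upwards [h1] with x hx v
      obtain ⟨h5, h6⟩ := hx v
      calc _ ≤ C * ‖dm (V n) (extChartAt 𝓘(ℝ, V n) x₀) x v‖ := h6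
        _ ≤ C * (C * ‖dm (V n) e x v‖) := mul_le_mul_of_nonneg_left h5 hC.le
        _ = C * C * ‖dm (V n) e x v‖ := by ring)
  refine ⟨R' * (C * R), by positivity, fun x v => ?_⟩
  have h1 := (hcmp' (pj x) (mfderiv 𝓘(ℝ, V n) 𝓘(ℝ, V d) pj x v)).2
  have h0 : dm (V d) e' (pj x) (mfderiv 𝓘(ℝ, V n) 𝓘(ℝ, V d) pj x v) = dm (V n) (e' ∘ pj) x v := by
    have h := mfderiv_comp x (he1'.mdifferentiableAt (by norm_num) : MDifferentiableAt 𝓘(ℝ, V d)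
      𝓘(ℝ, EuclideanSpace ℝ (Fin m')) e' (pj x)) (hpj.mdifferentiableAt (by norm_num) :
      MDifferentiableAt 𝓘(ℝ, V n) 𝓘(ℝ, V d) pj x)
    show _ = mfderiv 𝓘(ℝ, V n) 𝓘(ℝ, EuclideanSpace ℝ (Fin m')) (e' ∘ pj) x v
    rw [h]
    rfl
  rw [h0] at h1
  have h2 := hb x v
  have h3 := (hcmp x v).1
  calc _ ≤ R' * ‖dm (V n) (e' ∘ pj) x v‖ := h1
    _ ≤ R' * (C * ‖dm (V n) e x v‖) := mul_le_mul_of_nonneg_left h2 hR'.le
    _ ≤ R' * (C * (R * tnm NmT x v)) :=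
      mul_le_mul_of_nonneg_left (mul_le_mul_of_nonneg_left h3 hC.le) hR'.le
    _ = R' * (C * R) * tnm NmT x v := by ring

theorem metrizable {n : ℕ} (T : Type w) [TopologicalSpace T] [T2Space T] [CompactSpace T]
    [ChartedSpace (V n) T] [IsManifold (𝓡 n) ∞ T] : TopologicalSpace.MetrizableSpace T := by
  obtain ⟨m, e, he, h2, -⟩ := exists_embedding_euclidean_of_compact (I := 𝓡 n) (M := T)
  exact h2.isEmbedding.metrizableSpace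

theorem bnd {n d : ℕ} {T : Type w} [TopologicalSpace T] [T2Space T] [CompactSpace T]
    [ChartedSpace (V n) T] [IsManifold (𝓡 n) ∞ T] [IsManifold 𝓘(ℝ, V n) 1 T]
    {M : Type u} [TopologicalSpace M] [T2Space M] [CompactSpace M] [ChartedSpace (V d) M]
    [IsManifold (𝓡 d) ∞ M] [IsManifold 𝓘(ℝ, V d) 1 M]
    {NmT : TangentBundle 𝓘(ℝ, V n) T → ℝ} (hT : IsTangentNorm NmT)
    {NmM : TangentBundle 𝓘(ℝ, V d) M → ℝ} (hM : IsTangentNorm NmM) {pj : T → M}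
    (hpj : ContMDiff 𝓘(ℝ, V n) 𝓘(ℝ, V d) 1 pj) :
    ∃ c : ℝ, 0 ≤ c ∧ ∀ (x : T) (v : V n),
      NmM ⟨pj x, mfderiv 𝓘(ℝ, V n) 𝓘(ℝ, V d) pj x v⟩ ≤ c * NmT ⟨x, v⟩ := by
  have hm1 := metrizable (n := n) T
  have hm2 := metrizable (n := d) M
  let _ : MetricSpace T := TopologicalSpace.metrizableSpaceMetric T
  let _ : MetricSpace M := TopologicalSpace.metrizableSpaceMetric M
  exact bnd_metric hT hM hpj

theorem proj_iter {T M : Type*} {pj : T → M} {F : T → T} {f : M → M}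
    (h : ∀ t, pj (F t) = f (pj t)) (k : ℕ) : ∀ t, pj (F^[k] t) = f^[k] (pj t) := by
  induction k with
  | zero => exact fun t => rfl
  | succ k ih =>
    intro t
    rw [Function.iterate_succ_apply, Function.iterate_succ_apply, ih, h]

theorem nobx : S_NOBX.{u, v, w} := by
  intro d e n M _ _ _ _ _ _ N _ _ _ _ _ T _ _ _ _ _ _ Θ f F S hf hf' hF hF' hS NmM NmT hM hT hV K₁
    hK t ht v B h1 h2
  set pj : T → M := fun t => (Θ.symm t).1 with hpjd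
  have hpj : ContMDiff 𝓘(ℝ, V n) 𝓘(ℝ, V d) 1 pj := by
    have h0 : ContMDiff (𝓡 n) (𝓡 d) ∞ pj := Θ.symm.contMDiff.fst
    exact h0.of_le (by simp)
  have hcomm : ∀ t, pj (F t) = f (pj t) := by
    intro t
    have h3 := hS (Θ.symm t).1 (Θ.symm t).2
    have h4 : Θ ((Θ.symm t).1, (Θ.symm t).2) = t := Θ.apply_symm_apply t
    rw [h4] at h3
    show (Θ.symm (F t)).1 = _
    rw [h3, Θ.symm_apply_apply]
  have hcomm' : ∀ t, pj (F.symm t) = f.symm (pj t) := by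
    intro t
    have h3 := hcomm (F.symm t)
    rw [F.apply_symm_apply] at h3
    rw [h3, f.symm_apply_apply]
  obtain ⟨c, hc, hb⟩ := bnd hT hM hpj
  have key : ∀ (G : T → T) (g : M → M), ContMDiff 𝓘(ℝ, V n) 𝓘(ℝ, V n) 1 G →
      ContMDiff 𝓘(ℝ, V d) 𝓘(ℝ, V d) 1 g → (∀ t, pj (G t) = g (pj t)) →
      (∀ k : ℕ, NmT (tangentMap 𝓘(ℝ, V n) 𝓘(ℝ, V n) (G^[k]) ⟨t, v⟩) ≤ B) → ∀ k : ℕ,
      NmM (tangentMap 𝓘(ℝ, V d) 𝓘(ℝ, V d) (g^[k])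
        ⟨pj t, mfderiv 𝓘(ℝ, V n) 𝓘(ℝ, V d) pj t v⟩) ≤ c * B := by
    intro G g hG hg hGg hGB k
    have hGk := iter_smooth G hG k
    have hgk := iter_smooth g hg k
    have e1 : pj ∘ G^[k] = g^[k] ∘ pj := funext (proj_iter hGg k)
    have h5 : mfderiv 𝓘(ℝ, V n) 𝓘(ℝ, V d) (pj ∘ G^[k]) t =
        (mfderiv 𝓘(ℝ, V n) 𝓘(ℝ, V d) pj (G^[k] t)).comp
          (mfderiv 𝓘(ℝ, V n) 𝓘(ℝ, V n) (G^[k]) t) :=
      mfderiv_comp t (hpj.mdifferentiableAt (by norm_num)) (hGk.mdifferentiableAt (by norm_num))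
    have h6 : mfderiv 𝓘(ℝ, V n) 𝓘(ℝ, V d) (g^[k] ∘ pj) t =
        (mfderiv 𝓘(ℝ, V d) 𝓘(ℝ, V d) (g^[k]) (pj t)).comp
          (mfderiv 𝓘(ℝ, V n) 𝓘(ℝ, V d) pj t) :=
      mfderiv_comp t (hgk.mdifferentiableAt (by norm_num)) (hpj.mdifferentiableAt (by norm_num))
    have h7 := hb (G^[k] t) (mfderiv 𝓘(ℝ, V n) 𝓘(ℝ, V n) (G^[k]) t v)
    have h8 : NmM (tangentMap 𝓘(ℝ, V d) 𝓘(ℝ, V d) (g^[k])
        ⟨pj t, mfderiv 𝓘(ℝ, V n) 𝓘(ℝ, V d) pj t v⟩) =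
        NmM ⟨pj (G^[k] t), mfderiv 𝓘(ℝ, V n) 𝓘(ℝ, V d) pj (G^[k] t)
          (mfderiv 𝓘(ℝ, V n) 𝓘(ℝ, V n) (G^[k]) t v)⟩ := by
      congr 1
      have h9 : (g^[k]) (pj t) = pj (G^[k] t) := (congrFun e1 t).symm
      have h10 : (mfderiv 𝓘(ℝ, V d) 𝓘(ℝ, V d) (g^[k]) (pj t)
          (mfderiv 𝓘(ℝ, V n) 𝓘(ℝ, V d) pj t v) : V d) =
          (mfderiv 𝓘(ℝ, V n) 𝓘(ℝ, V d) pj (G^[k] t)
          (mfderiv 𝓘(ℝ, V n) 𝓘(ℝ, V n) (G^[k]) t v) : V d) := by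
        have h11 : (mfderiv 𝓘(ℝ, V n) 𝓘(ℝ, V d) (pj ∘ G^[k]) t v : V d) =
            (mfderiv 𝓘(ℝ, V n) 𝓘(ℝ, V d) (g^[k] ∘ pj) t v : V d) := by
          rw [e1]
        rw [h5] at h11
        rw [h6] at h11
        exact h11.symm
      exact Bundle.TotalSpace.ext h9 (heq_of_eq h10)
    rw [h8]
    exact h7.trans (mul_le_mul_of_nonneg_left (hGB k) hc)
  have h3 := key F f hF hf hcomm h1
  have h4 := key F.symm f.symm hF' hf' hcomm' h2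
  have h5 := hK (pj t) ht (mfderiv 𝓘(ℝ, V n) 𝓘(ℝ, V d) pj t v) (c * B) h3 h4
  exact hV t v h5 B h1 h2

end Pool.Agent.H22.PTN
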