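import Pool.Agent.H20.PT.Chain
import Pool.Agent.H22.PT.Dich

/-!
# Uniform contraction along closed chains: `S_CONTR` from `S_LF`, `S_HYP1`, `S_ANG`
-/

set_option autoImplicit false
set_option linter.unusedSectionVars false

open Filter Set Metric Topology

universe u

namespace Pool.Agent.H22.PTC

open Pool.Agent.H20.PT Pool.Agent.H22.PTD

variable {X : Type u} {E : Type} [NormedAddCommGroup E] [NormedSpace ℝ E]

theorem etr_norm {S : CSys X E} {x y : X} {n : ℕ} {M : E ≃L[ℝ] E} (h : ETr S x y n M) :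
    ∀ v, ‖M v‖ ≤ S.C ^ n * ‖v‖ ∧ ‖M⁻¹ v‖ ≤ S.C ^ n * ‖v‖ := by
  induction h with
  | nil =>
    intro v
    rw [inv_one, pow_zero, one_mul]
    exact ⟨le_of_eq rfl, le_of_eq rfl⟩
  | @cons y z n M h1 hs ih =>
    intro v
    have hC := S.one_le
    constructor
    · have h2 : (S.A y z * M) v = (S.A y z) (M v) := rfl
      rw [h2]
      calc ‖(S.A y z) (M v)‖ ≤ S.C * ‖M v‖ :=
            ContinuousLinearMap.le_of_opNorm_le (S.A y z : E →L[ℝ] E) (S.up _ _ hs) _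
        _ ≤ S.C * (S.C ^ n * ‖v‖) := by
            have := (ih v).1
            gcongr
        _ = S.C ^ (n + 1) * ‖v‖ := by ring
    · have h2 : (S.A y z * M)⁻¹ v = M⁻¹ ((S.A y z).symm v) := rfl
      rw [h2]
      calc ‖M⁻¹ ((S.A y z).symm v)‖ ≤ S.C ^ n * ‖(S.A y z).symm v‖ := (ih _).2
        _ ≤ S.C ^ n * (S.C * ‖v‖) := by
            have := ContinuousLinearMap.le_of_opNorm_le ((S.A y z).symm : E →L[ℝ] E)
              (S.low _ _ hs) v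
            gcongr
            exact this
        _ = S.C ^ (n + 1) * ‖v‖ := by ring

theorem es_conj (P Q : E ≃L[ℝ] E) {v : E} (hv : v ∈ Es (Q * P)) : P v ∈ Es (P * Q) := by
  have h1 : Tendsto (fun p : ℕ => ((Q * P) ^ p) v) atTop (𝓝 0) := hv
  have h2 := (P.continuous.tendsto 0).comp h1
  rw [map_zero] at h2
  show Tendsto (fun p : ℕ => ((P * Q) ^ p) (P v)) atTop (𝓝 0)
  refine h2.congr (fun p => ?_)
  have h3 : SemiconjBy P (Q * P) (P * Q) := by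
    rw [SemiconjBy, mul_assoc]
  have h4 := congrArg (fun T : E ≃L[ℝ] E => T v) (h3.pow_right p).eq
  exact h4

theorem eu_conj (P Q : E ≃L[ℝ] E) {v : E} (hv : v ∈ Eu (Q * P)) : P v ∈ Eu (P * Q) := by
  have h1 : Tendsto (fun p : ℕ => ((Q * P)⁻¹ ^ p) v) atTop (𝓝 0) := hv
  have h2 := (P.continuous.tendsto 0).comp h1
  rw [map_zero] at h2
  show Tendsto (fun p : ℕ => ((P * Q)⁻¹ ^ p) (P v)) atTop (𝓝 0)
  refine h2.congr (fun p => ?_)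
  have h3 : SemiconjBy P (Q * P) (P * Q) := by
    rw [SemiconjBy, mul_assoc]
  have h4 := congrArg (fun T : E ≃L[ℝ] E => T v) ((h3.inv_right).pow_right p).eq
  exact h4

theorem es_conj' (P Q : E ≃L[ℝ] E) {v : E} (hv : v ∈ Es (P * Q)) : P⁻¹ v ∈ Es (Q * P) := by
  have h1 : Tendsto (fun p : ℕ => ((P * Q) ^ p) v) atTop (𝓝 0) := hv
  have h2 := ((P⁻¹).continuous.tendsto 0).comp h1
  rw [map_zero] at h2
  show Tendsto (fun p : ℕ => ((Q * P) ^ p) (P⁻¹ v)) atTop (𝓝 0)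
  refine h2.congr (fun p => ?_)
  have h3 : SemiconjBy P⁻¹ (P * Q) (Q * P) := by
    rw [SemiconjBy]; group
  have h4 := congrArg (fun T : E ≃L[ℝ] E => T v) (h3.pow_right p).eq
  exact h4

theorem eu_conj' (P Q : E ≃L[ℝ] E) {v : E} (hv : v ∈ Eu (P * Q)) : P⁻¹ v ∈ Eu (Q * P) := by
  have h1 : Tendsto (fun p : ℕ => ((P * Q)⁻¹ ^ p) v) atTop (𝓝 0) := hv
  have h2 := ((P⁻¹).continuous.tendsto 0).comp h1
  rw [map_zero] at h2
  show Tendsto (fun p : ℕ => ((Q * P)⁻¹ ^ p) (P⁻¹ v)) atTop (𝓝 0)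
  refine h2.congr (fun p => ?_)
  have h3 : SemiconjBy P⁻¹ (P * Q) (Q * P) := by
    rw [SemiconjBy]; group
  have h4 := congrArg (fun T : E ≃L[ℝ] E => T v) ((h3.inv_right).pow_right p).eq
  exact h4

theorem main (hLF : S_LF.{u}) (hHYP : S_HYP1) (hANG : S_ANG) : S_CONTR.{u} := by
  intro X E _ _ _ S κ hκ hκ1 hNC ℓ
  set η : ℝ := κ / 4 with hη
  have hη0 : 0 < η := by positivity
  have hη1 : η ≤ 1 := by rw [hη]; linarith
  obtain ⟨K, hK1, hK⟩ := hHYP E η hη0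
  set θ : ℝ := 1 + η with hθ
  have hθ1 : 1 < θ := by rw [hθ]; linarith
  have hθ0 : 0 < θ := by linarith
  have hC := S.one_le
  have hCℓ : 1 ≤ S.C ^ ℓ := one_le_pow₀ hC
  refine ⟨(1 + 2 / η) * (S.C ^ ℓ * K ^ 2), ?_, ?_⟩
  · have h1 : 0 < 2 / η := by positivity
    have h2 : 1 ≤ K ^ 2 := one_le_pow₀ hK1
    have h3 : 1 ≤ S.C ^ ℓ * K ^ 2 := by nlinarith
    nlinarith
  intro x y m n l P Q R hP hQ hR hl1 hl2 hmn
  have hθ1' : 1 < θ ^ (m + l) := one_lt_pow₀ hθ1 (by omega)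
  have hRb : ∀ v, ‖R v‖ ≤ S.C ^ ℓ * ‖v‖ ∧ ‖R⁻¹ v‖ ≤ S.C ^ ℓ * ‖v‖ := by
    intro v
    have h1 := etr_norm hR v
    have h2 : S.C ^ l ≤ S.C ^ ℓ := pow_le_pow_right₀ hC hl2
    exact ⟨h1.1.trans (by gcongr), h1.2.trans (by gcongr)⟩
  have hrate : (θ ^ (m + l))⁻¹ ≤ θ⁻¹ ^ m := by
    rw [inv_pow]
    apply inv_anti₀ (by positivity)
    exact pow_le_pow_right₀ hθ1.le (by omega)
  constructor
  · intro v hv
    have hM := ETr.append hP hR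
    have hgood := (hLF X E S κ hκ hκ1 hNC x).good _ _ hM (by omega)
    obtain ⟨hc, hpr, hs, -⟩ := hK (θ ^ (m + l)) (R * P) hθ1' hgood
    obtain ⟨s, hs', u, hu', rfl⟩ := Submodule.mem_sup.1
      (show v ∈ Es (R * P) ⊔ Eu (R * P) by rw [hc.sup_eq_top]; trivial)
    have h1 : P (s + u) ∈ Es (P * Q) := es_conj P Q hv
    have h2 : P u ∈ Eu (P * R) := eu_conj P R hu'
    have h3 := hANG E η θ hη0 hη1 hθ1 _ (hLF X E S κ hκ hκ1 hNC y) (n + m) (P * Q) (l + m) (P * R)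
      (ETr.append hQ hP) (ETr.append hR hP) (by omega) (by omega) _ h1 _ h2
    have h4 : P (s + u) - P u = P s := by rw [map_add]; abel
    rw [h4] at h3
    have h5 : P s = R⁻¹ ((R * P) s) := by
      show P s = (R⁻¹ * (R * P)) s
      rw [inv_mul_cancel_left]
    have h6 := hs 1 le_rfl s hs'
    rw [pow_one, pow_one] at h6
    have h7 : ‖P s‖ ≤ S.C ^ ℓ * (K * (θ ^ (m + l))⁻¹ * ‖s‖) := by
      rw [h5]
      refine ((hRb _).2).trans ?_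
      gcongr
    have h8 := (hpr s hs' u hu').1
    have h9 : ‖P s‖ ≤ S.C ^ ℓ * K ^ 2 * θ⁻¹ ^ m * ‖s + u‖ := by
      calc ‖P s‖ ≤ S.C ^ ℓ * (K * (θ ^ (m + l))⁻¹ * ‖s‖) := h7
        _ ≤ S.C ^ ℓ * (K * θ⁻¹ ^ m * (K * ‖s + u‖)) := by gcongr
        _ = S.C ^ ℓ * K ^ 2 * θ⁻¹ ^ m * ‖s + u‖ := by ring
    have h10 : ‖P (s + u)‖ ≤ 2 / η * ‖P s‖ := by
      rw [div_mul_eq_mul_div, le_div_iff₀ hη0]
      linarith
    calc ‖P (s + u)‖ ≤ 2 / η * ‖P s‖ := h10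
      _ ≤ (1 + 2 / η) * ‖P s‖ := by
          have := norm_nonneg (P s)
          nlinarith
      _ ≤ (1 + 2 / η) * (S.C ^ ℓ * K ^ 2 * θ⁻¹ ^ m * ‖s + u‖) := by gcongr
      _ = (1 + 2 / η) * (S.C ^ ℓ * K ^ 2) * θ⁻¹ ^ m * ‖s + u‖ := by ring
  · intro v hv
    have hM := ETr.append hR hP
    have hgood := (hLF X E S κ hκ hκ1 hNC y).good _ _ hM (by omega)
    rw [add_comm l m] at hgood
    obtain ⟨hc, hpr, -, hu⟩ := hK (θ ^ (m + l)) (P * R) hθ1' hgood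
    obtain ⟨s, hs', u, hu', rfl⟩ := Submodule.mem_sup.1
      (show v ∈ Es (P * R) ⊔ Eu (P * R) by rw [hc.sup_eq_top]; trivial)
    have h1 : P⁻¹ (s + u) ∈ Eu (Q * P) := eu_conj' P Q hv
    have h2 : P⁻¹ s ∈ Es (R * P) := es_conj' P R hs'
    have h3 := hANG E η θ hη0 hη1 hθ1 _ (hLF X E S κ hκ hκ1 hNC x) (m + l) (R * P) (m + n) (Q * P)
      (ETr.append hP hR) (ETr.append hP hQ) (by omega) (by omega) _ h2 _ h1
    have h4 : ‖P⁻¹ s - P⁻¹ (s + u)‖ = ‖P⁻¹ u‖ := by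
      rw [map_add, ← norm_neg]
      congr 1
      abel
    rw [h4] at h3
    have h5 : P⁻¹ u = R ((P * R)⁻¹ u) := by
      show P⁻¹ u = (R * (P * R)⁻¹) u
      rw [mul_inv_rev, mul_inv_cancel_left]
    have h6 := hu 1 le_rfl u hu'
    rw [pow_one, pow_one] at h6
    have h7 : ‖P⁻¹ u‖ ≤ S.C ^ ℓ * (K * (θ ^ (m + l))⁻¹ * ‖u‖) := by
      rw [h5]
      refine ((hRb _).1).trans ?_
      gcongr
    have h8 := (hpr s hs' u hu').2
    have h9 : ‖P⁻¹ u‖ ≤ S.C ^ ℓ * K ^ 2 * θ⁻¹ ^ m * ‖s + u‖ := by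
      calc ‖P⁻¹ u‖ ≤ S.C ^ ℓ * (K * (θ ^ (m + l))⁻¹ * ‖u‖) := h7
        _ ≤ S.C ^ ℓ * (K * θ⁻¹ ^ m * (K * ‖s + u‖)) := by gcongr
        _ = S.C ^ ℓ * K ^ 2 * θ⁻¹ ^ m * ‖s + u‖ := by ring
    have h10 : ‖P⁻¹ s‖ ≤ 2 / η * ‖P⁻¹ u‖ := by
      rw [div_mul_eq_mul_div, le_div_iff₀ hη0]
      linarith
    have h11 : ‖P⁻¹ (s + u)‖ ≤ ‖P⁻¹ s‖ + ‖P⁻¹ u‖ := by
      rw [map_add]; exact norm_add_le _ _
    calc ‖P⁻¹ (s + u)‖ ≤ ‖P⁻¹ s‖ + ‖P⁻¹ u‖ := h11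
      _ ≤ (1 + 2 / η) * ‖P⁻¹ u‖ := by linarith
      _ ≤ (1 + 2 / η) * (S.C ^ ℓ * K ^ 2 * θ⁻¹ ^ m * ‖s + u‖) := by gcongr
      _ = (1 + 2 / η) * (S.C ^ ℓ * K ^ 2) * θ⁻¹ ^ m * ‖s + u‖ := by ring

end Pool.Agent.H22.PTC
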