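import Pool.Agent.H20.PT.Skew
import Pool.Agent.H18.PT.Tor

/-!
# Project PT3: full shifts for skew products with toral fibre maps (`S_TORS`)
-/

set_option autoImplicit false
set_option linter.unusedSectionVars false

open Filter Set Metric Topology

universe u v w

namespace Pool.Agent.H22.PTT

open Pool.Agent.H20.PT Pool.Agent.R773.TE
open Pool.Agent.H18.PT (pow_iter symm_pow)

variable {W : Type} [NormedAddCommGroup W] [NormedSpace ℝ W]

/-- The periodic solution of the perturbed equation. -/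
theorem per_sol [CompleteSpace W] (B : W ≃L[ℝ] W) (P : W →L[ℝ] W)
    (hPP : ∀ v, P (P v) = P v) (hBP : ∀ v, B (P v) = P (B v)) {q ε₀ : ℝ} (hq : 0 ≤ q)
    (hq8 : q ≤ 1 / 8) (hε : 0 ≤ ε₀) (hε4 : (‖P‖ + 1) * ε₀ ≤ 1 / 4)
    (h1 : ∀ v, ‖B (P v)‖ ≤ q * ‖v‖) (h2 : ∀ v, ‖B.symm (v - P v)‖ ≤ q * ‖v‖)
    (n : ℕ) [NeZero n] (c : ZMod n → W) (ψ : ZMod n → W → W) (hψ0 : ∀ t, ψ t 0 = 0)
    (hψ : ∀ t e e', ‖ψ t e - ψ t e'‖ ≤ ε₀ * ‖e - e'‖) {η R : ℝ} (hη : 0 ≤ η) (hR : 0 ≤ R)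
    (hc1 : ∀ t, ‖P (c t)‖ ≤ η) (hc2 : ∀ t, ‖c t - P (c t)‖ ≤ R) :
    ∃ e : ZMod n → W, (∀ t, e (t + 1) = B (e t) + c t + ψ t (e t)) ∧
      ∀ t, ‖e t‖ ≤ 2 * (η + q * R) := by
  let T : (ZMod n → W) → ZMod n → W := fun e t =>
    B (P (e (t - 1))) + P (c (t - 1) + ψ (t - 1) (e (t - 1))) +
      B.symm ((e (t + 1) - (c t + ψ t (e t))) - P (e (t + 1) - (c t + ψ t (e t))))
  have hTd : ∀ (e e' : ZMod n → W) (D : ℝ), (∀ t, ‖e t - e' t‖ ≤ D) → ∀ t,
      ‖T e t - T e' t‖ ≤ 1 / 2 * D := by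
    intro e e' D hD t
    have hD0 : 0 ≤ D := (norm_nonneg _).trans (hD t)
    have h3 : T e t - T e' t = B (P (e (t - 1) - e' (t - 1))) +
        P (ψ (t - 1) (e (t - 1)) - ψ (t - 1) (e' (t - 1))) +
        B.symm (((e (t + 1) - e' (t + 1)) - (ψ t (e t) - ψ t (e' t))) -
          P ((e (t + 1) - e' (t + 1)) - (ψ t (e t) - ψ t (e' t)))) := by
      simp only [T, map_sub, map_add]
      abel
    rw [h3]
    have h4 : ‖B (P (e (t - 1) - e' (t - 1)))‖ ≤ q * D :=
      (h1 _).trans (mul_le_mul_of_nonneg_left (hD _) hq)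
    have h5 : ‖P (ψ (t - 1) (e (t - 1)) - ψ (t - 1) (e' (t - 1)))‖ ≤ ‖P‖ * (ε₀ * D) :=
      (P.le_opNorm _).trans (mul_le_mul_of_nonneg_left ((hψ _ _ _).trans
        (mul_le_mul_of_nonneg_left (hD _) hε)) (norm_nonneg _))
    have h6 : ‖B.symm (((e (t + 1) - e' (t + 1)) - (ψ t (e t) - ψ t (e' t))) -
          P ((e (t + 1) - e' (t + 1)) - (ψ t (e t) - ψ t (e' t))))‖ ≤ q * (D + ε₀ * D) := by
      refine (h2 _).trans (mul_le_mul_of_nonneg_left ?_ hq)
      refine (norm_sub_le _ _).trans (add_le_add (hD _) ?_)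
      exact (hψ _ _ _).trans (mul_le_mul_of_nonneg_left (hD _) hε)
    have h7 : 0 ≤ ‖P‖ := norm_nonneg _
    have h8 : ‖P‖ * (ε₀ * D) + ε₀ * D ≤ 1 / 4 * D := by
      have := mul_le_mul_of_nonneg_right hε4 hD0
      nlinarith
    have h9 : q * (ε₀ * D) ≤ ε₀ * D := by
      have : 0 ≤ ε₀ * D := by positivity
      nlinarith
    have h10 : q * D ≤ 1 / 8 * D := mul_le_mul_of_nonneg_right hq8 hD0
    refine (norm_add_le _ _).trans ((add_le_add (norm_add_le _ _) le_rfl).trans ?_)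
    nlinarith
  have hT : ContractingWith (1 / 2 : NNReal) T := by
    refine ⟨by
      rw [← NNReal.coe_lt_coe]
      norm_num, LipschitzWith.of_dist_le_mul fun z z' => ?_⟩
    rw [dist_pi_le_iff (by positivity)]
    intro t
    rw [dist_eq_norm]
    have h3 := hTd z z' (dist z z') (fun k => by
      rw [← dist_eq_norm]
      exact dist_le_pi_dist z z' k) t
    refine h3.trans (le_of_eq ?_)
    push_cast
    ring
  let e := hT.fixedPoint T
  have he : T e = e := hT.fixedPoint_isFixedPt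
  have hei : ∀ t, e t = B (P (e (t - 1))) + P (c (t - 1) + ψ (t - 1) (e (t - 1))) +
      B.symm ((e (t + 1) - (c t + ψ t (e t))) - P (e (t + 1) - (c t + ψ t (e t)))) := fun t =>
    (congrFun he t).symm
  have hsP : ∀ v, B.symm (P v) = P (B.symm v) := fun v => by
    rw [ContinuousLinearEquiv.symm_apply_eq, hBP, B.apply_symm_apply]
  have hP : ∀ t, P (e t) = B (P (e (t - 1))) + P (c (t - 1) + ψ (t - 1) (e (t - 1))) := by
    intro t
    rw [hei t, map_add, map_add, ← hsP, map_sub P, hPP, hPP, sub_self, map_zero, add_zero]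
    congr 1
    rw [← hBP, hPP]
  refine ⟨e, fun t => ?_, ?_⟩
  · have h3 := hP (t + 1)
    rw [add_sub_cancel_right] at h3
    have h4 : B (e t - P (e t)) =
        (e (t + 1) - (c t + ψ t (e t))) - P (e (t + 1) - (c t + ψ t (e t))) := by
      have h5 : e t - P (e t) =
          B.symm ((e (t + 1) - (c t + ψ t (e t))) - P (e (t + 1) - (c t + ψ t (e t)))) := by
        rw [hP t]
        nth_rewrite 1 [hei t]
        abel
      rw [h5, B.apply_symm_apply]
    have h6 : B (e t) = B (e t - P (e t)) + B (P (e t)) := by rw [← map_add, sub_add_cancel]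
    have h7 : B (P (e t)) = P (e (t + 1)) - P (c t + ψ t (e t)) := by rw [h3]; abel
    rw [h6, h4, h7, map_sub]
    abel
  · have hbd : ‖e‖ ≤ 2 * (η + q * R) := by
      have h5 : ‖e‖ ≤ 1 / 2 * ‖e‖ + (η + q * R) := by
        rw [pi_norm_le_iff_of_nonneg (by positivity)]
        intro t
        have h3 := hTd e 0 ‖e‖ (fun k => by
          rw [Pi.zero_apply, sub_zero]
          exact norm_le_pi_norm e k) t
        have h4 : T 0 t = P (c (t - 1)) + B.symm (-(c t - P (c t))) := by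
          simp only [T, Pi.zero_apply, hψ0, map_zero, add_zero, zero_add, zero_sub, map_neg,
            sub_neg_eq_add, neg_sub]
          congr 1
          congr 1
          abel
        have h6 : ‖T 0 t‖ ≤ η + q * R := by
          rw [h4]
          refine (norm_add_le _ _).trans (add_le_add (hc1 _) ?_)
          rw [map_neg, norm_neg]
          have h7 : c t - P (c t) = (c t - P (c t)) - P (c t - P (c t)) := by
            rw [map_sub, hPP, sub_self, sub_zero]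
          rw [h7]
          exact (h2 _).trans (mul_le_mul_of_nonneg_left (hc2 t) hq)
        have h8 : e t = (T e t - T 0 t) + T 0 t := by rw [he]; abel
        rw [h8]
        exact (norm_add_le _ _).trans (add_le_add h3 h6)
      linarith
    exact fun t => (norm_le_pi_norm e t).trans hbd

/-- Density of the lattice in the stable direction. -/
theorem dense {A : W ≃L[ℝ] W} {Λ : AddSubgroup W} (hA : IsHypAut A Λ) {P : W →L[ℝ] W} {C μ : ℝ}
    (hC0 : 0 ≤ C) (hμ0 : 0 < μ) (hμ1 : μ < 1) (hPA : ∀ (n : ℕ) (v : W), A^[n] (P v) = P (A^[n] v))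
    (hC : ∀ (n : ℕ) (v : W), ‖A^[n] (P v)‖ ≤ C * μ ^ n * ‖v‖) {η : ℝ} (hη : 0 < η) :
    ∃ R : ℝ, 0 ≤ R ∧ ∀ v : W, ∃ l ∈ Λ, ‖P (v - l)‖ ≤ η ∧ ‖(v - l) - P (v - l)‖ ≤ R := by
  obtain ⟨C₀, hC₀⟩ := hA.lattice
  have hC₀0 : 0 ≤ C₀ := by
    obtain ⟨u, -, hu⟩ := hC₀ 0
    exact (norm_nonneg _).trans hu
  have h1 : Tendsto (fun i : ℕ => C * μ ^ i * C₀) atTop (𝓝 0) := by
    have := ((tendsto_pow_atTop_nhds_zero_of_lt_one hμ0.le hμ1).const_mul C).mul_const C₀
    simpa using this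
  obtain ⟨i, hi⟩ := (h1.eventually (ge_mem_nhds hη)).exists
  refine ⟨(1 + ‖P‖) * (‖((A ^ i : W ≃L[ℝ] W) : W →L[ℝ] W)‖ * C₀), by positivity, fun v => ?_⟩
  obtain ⟨l', hl', h2⟩ := hC₀ ((A ^ i).symm v)
  have hmem : ∀ (m : ℕ) (x : W), x ∈ Λ → A^[m] x ∈ Λ := by
    intro m
    induction m with
    | zero => exact fun x hx => hx
    | succ m ih =>
      intro x hx
      rw [Function.iterate_succ_apply']
      exact (hA.inv _).1 (ih x hx)
  have h3 : v - A^[i] l' = (A ^ i) ((A ^ i).symm v - l') := by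
    rw [map_sub, (A ^ i).apply_symm_apply, pow_iter]
  refine ⟨A^[i] l', hmem i l' hl', ?_, ?_⟩
  · rw [h3, pow_iter, ← hPA]
    refine (hC i _).trans (le_trans ?_ hi)
    exact mul_le_mul_of_nonneg_left h2 (by positivity)
  · have h4 : ‖v - A^[i] l'‖ ≤ ‖((A ^ i : W ≃L[ℝ] W) : W →L[ℝ] W)‖ * C₀ := by
      rw [h3]
      exact (((A ^ i : W ≃L[ℝ] W) : W →L[ℝ] W).le_opNorm _).trans
        (mul_le_mul_of_nonneg_left h2 (norm_nonneg _))
    refine (norm_sub_le _ _).trans ?_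
    have h5 := P.le_opNorm (v - A^[i] l')
    have h6 : 0 ≤ ‖P‖ := norm_nonneg _
    nlinarith [mul_le_mul_of_nonneg_left h4 h6]

theorem norm_eq_of_add_eq_zero' {x y : W} (h : x + y = 0) : ‖x‖ = ‖y‖ := by
  rw [eq_neg_of_add_eq_zero_left h, norm_neg]

/-- Small multiples of a vector are different modulo the lattice. -/
theorem exists_pts [Nontrivial W] (Λ : AddSubgroup W) [DiscreteTopology Λ] (k : ℕ) :
    ∃ (a : Fin k → W) (ε : ℝ), 0 < ε ∧ ∀ i j, i ≠ j → ∀ y, ‖y‖ ≤ 2 * ε → a i - a j + y ∉ Λ := by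
  obtain ⟨r, hr, hΛ⟩ : ∃ r : ℝ, 0 < r ∧ ∀ x ∈ Λ, ‖x‖ < r → x = 0 := by
    have h1 : {(0 : Λ)} ∈ 𝓝 (0 : Λ) := (isOpen_discrete {(0 : Λ)}).mem_nhds rfl
    obtain ⟨r, hr, h2⟩ := Metric.mem_nhds_iff.1 h1
    refine ⟨r, hr, fun x hx hxr => ?_⟩
    have h3 : (⟨x, hx⟩ : Λ) ∈ Metric.ball (0 : Λ) r := by
      rw [mem_ball_zero_iff]
      exact hxr
    exact congrArg Subtype.val (h2 h3)
  obtain ⟨w, hw⟩ := exists_ne (0 : W)
  have hw0 : 0 < ‖w‖ := norm_pos_iff.2 hw
  obtain ⟨δ, hδ0, hδ⟩ : ∃ δ : ℝ, 0 < δ ∧ (k + 1) * (δ * ‖w‖) < r := by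
    refine ⟨r / (2 * ((k + 1) * ‖w‖)), by positivity, ?_⟩
    have : ((k : ℝ) + 1) * (r / (2 * ((k + 1) * ‖w‖)) * ‖w‖) = r / 2 := by
      field_simp
    rw [this]
    linarith
  refine ⟨fun i => (((i : ℕ) : ℝ) * δ) • w, δ * ‖w‖ / 4, by positivity, fun i j hij y hy hmem => ?_⟩
  have h1 : (((i : ℕ) : ℝ) * δ) • w - (((j : ℕ) : ℝ) * δ) • w =
      ((((i : ℕ) : ℝ) - ((j : ℕ) : ℝ)) * δ) • w := by
    rw [← sub_smul, sub_mul]
  have h2 : ‖((((i : ℕ) : ℝ) - ((j : ℕ) : ℝ)) * δ) • w‖ =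
      |((i : ℕ) : ℝ) - ((j : ℕ) : ℝ)| * (δ * ‖w‖) := by
    rw [norm_smul, norm_mul, Real.norm_eq_abs, Real.norm_eq_abs, abs_of_pos hδ0, mul_assoc]
  have h3 : |((i : ℕ) : ℝ) - ((j : ℕ) : ℝ)| ≤ k := by
    have hi : ((i : ℕ) : ℝ) ≤ k := by exact_mod_cast i.2.le
    have hj : ((j : ℕ) : ℝ) ≤ k := by exact_mod_cast j.2.le
    have hi0 : (0 : ℝ) ≤ ((i : ℕ) : ℝ) := Nat.cast_nonneg _
    have hj0 : (0 : ℝ) ≤ ((j : ℕ) : ℝ) := Nat.cast_nonneg _
    rw [abs_le]
    constructor <;> linarith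
  have h4 : 1 ≤ |((i : ℕ) : ℝ) - ((j : ℕ) : ℝ)| := by
    have h5 : ((i : ℕ) : ℤ) - ((j : ℕ) : ℤ) ≠ 0 := by
      intro h
      apply hij
      apply Fin.ext
      omega
    have h6 := Int.one_le_abs h5
    exact_mod_cast h6
  have hδw : 0 < δ * ‖w‖ := by positivity
  have h5 : (((i : ℕ) : ℝ) * δ) • w - (((j : ℕ) : ℝ) * δ) • w + y = 0 := by
    refine hΛ _ hmem ?_
    refine (norm_add_le _ _).trans_lt ?_
    rw [h1, h2]
    have : |((i : ℕ) : ℝ) - ((j : ℕ) : ℝ)| * (δ * ‖w‖) ≤ k * (δ * ‖w‖) :=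
      mul_le_mul_of_nonneg_right h3 hδw.le
    linarith
  rw [h1] at h5
  have h6 := norm_eq_of_add_eq_zero' h5
  rw [h2] at h6
  have : 1 * (δ * ‖w‖) ≤ |((i : ℕ) : ℝ) - ((j : ℕ) : ℝ)| * (δ * ‖w‖) :=
    mul_le_mul_of_nonneg_right h4 hδw.le
  linarith

/-- **TORS.** -/
theorem tors : S_TORS.{u, v} := by
  intro W _ _ _ _ Λ _ _ A hA
  obtain ⟨P, C, μ, hC0, hμ0, hμ1, hPP, hAP, hC⟩ := hA.hyp
  have hPA : ∀ (n : ℕ) (v : W), A^[n] (P v) = P (A^[n] v) := by
    intro n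
    induction n with
    | zero => exact fun _ => rfl
    | succ n ih =>
      intro v
      rw [Function.iterate_succ_apply, Function.iterate_succ_apply, hAP, ih]
  refine ⟨1 / (4 * (‖P‖ + 1)), by positivity, fun k => ?_⟩
  obtain ⟨a, ε, hε, hsep⟩ := exists_pts Λ k
  obtain ⟨R, hR, hd⟩ := dense hA (by linarith : (0 : ℝ) ≤ C) hμ0 hμ1 hPA (fun n v => (hC n v).1)
    (η := ε / 4) (by positivity)
  have hC0' : (0 : ℝ) ≤ C := by linarith
  have hq : ∀ᶠ j : ℕ in atTop, C * μ ^ j ≤ min (1 / 8) (ε / (4 * (R + 1))) := by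
    have h1 : Tendsto (fun j : ℕ => C * μ ^ j) atTop (𝓝 (C * 0)) :=
      (tendsto_pow_atTop_nhds_zero_of_lt_one hμ0.le hμ1).const_mul C
    rw [mul_zero] at h1
    exact h1.eventually (ge_mem_nhds (lt_min (by norm_num) (by positivity)))
  obtain ⟨J, hJ⟩ := eventually_atTop.1 hq
  refine ⟨J, fun j hj M K _ _ p S φ hpc hps hp hS hφ => ?_⟩
  have hqj := hJ j hj
  refine ⟨fun i => p '' closedBall (a i) ε, fun i => ?_, fun i i' hii => ?_, fun n x s hn => ?_⟩
  · exact ((isCompact_closedBall (a i) ε).image hpc).isClosed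
  · rw [Set.disjoint_left]
    rintro y ⟨z, hz, hzy⟩ ⟨z', hz', hzy'⟩
    rw [← hzy', hp] at hzy
    rw [mem_closedBall, dist_eq_norm] at hz hz'
    refine hsep i i' hii ((z - a i) - (z' - a i')) ?_ ?_
    · exact (norm_sub_le _ _).trans (by linarith)
    · have : a i - a i' + ((z - a i) - (z' - a i')) = z - z' := by abel
      rw [this]
      exact hzy
  · have : NeZero n := ⟨by omega⟩
    let g : ZMod n → W := fun t =>
      (A ^ j) (a (s t.val)) + φ (x t.val) (a (s t.val)) - a (s (t + 1).val)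
    choose l hl hl1 hl2 using fun t => hd (g t)
    obtain ⟨e, he1, he2⟩ := per_sol (A ^ j) P hPP
      (fun v => by
        rw [pow_iter, pow_iter]
        exact hPA j v)
      (q := C * μ ^ j) (ε₀ := 1 / (4 * (‖P‖ + 1))) (by positivity)
      (hqj.trans (min_le_left _ _)) (by positivity)
      (by
        have h7 : 0 ≤ ‖P‖ := norm_nonneg _
        apply le_of_eq
        field_simp)
      (fun v => by
        rw [pow_iter]
        exact (hC j v).1)
      (fun v => by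
        rw [symm_pow]
        exact (hC j v).2) n (fun t => g t - l t)
      (fun t e => φ (x t.val) (a (s t.val) + e) - φ (x t.val) (a (s t.val)))
      (fun t => by simp)
      (fun t e e' => by
        have h1 : φ (x t.val) (a (s t.val) + e) - φ (x t.val) (a (s t.val)) -
            (φ (x t.val) (a (s t.val) + e') - φ (x t.val) (a (s t.val))) =
            φ (x t.val) (a (s t.val) + e) - φ (x t.val) (a (s t.val) + e') := by abel
        rw [h1]
        refine (hφ _ _ _).trans (le_of_eq ?_)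
        congr 2
        abel) (η := ε / 4) (by positivity) hR hl1 hl2
    have heq : ∀ t : ZMod n, (A ^ j) (a (s t.val) + e t) + φ (x t.val) (a (s t.val) + e t) =
        (a (s (t + 1).val) + e (t + 1)) + l t := by
      intro t
      rw [he1 t, map_add]
      simp only [g]
      abel
    have hval : ∀ i, i < n → ((i : ZMod n)).val = i := fun i hi => by
      rw [ZMod.val_natCast, Nat.mod_eq_of_lt hi]
    refine ⟨fun i => p (a (s ((i : ZMod n)).val) + e (i : ZMod n)), ?_, fun i hi => ⟨?_, ?_⟩⟩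
    · simp
    · have h1 := heq (i : ZMod n)
      have h2 : ((i + 1 : ℕ) : ZMod n) = (i : ZMod n) + 1 := by push_cast; rfl
      simp only [h2]
      have h3 := hS (x i) (a (s ((i : ZMod n)).val) + e (i : ZMod n))
      rw [h3, hp]
      rw [hval i hi] at h1 ⊢
      rw [h1]
      have h4 : a (s ((i : ZMod n) + 1).val) + e ((i : ZMod n) + 1) -
          (a (s ((i : ZMod n) + 1).val) + e ((i : ZMod n) + 1) + l (i : ZMod n)) =
          -l (i : ZMod n) := by abel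
      rw [h4]
      exact Λ.neg_mem (hl _)
    · refine ⟨a (s ((i : ZMod n)).val) + e (i : ZMod n), ?_, rfl⟩
      rw [mem_closedBall, dist_eq_norm, hval i hi, add_sub_cancel_left]
      refine (he2 _).trans ?_
      have h2 : C * μ ^ j ≤ ε / (4 * (R + 1)) := hqj.trans (min_le_right _ _)
      have h3 : C * μ ^ j * R ≤ ε / 4 := by
        calc C * μ ^ j * R ≤ ε / (4 * (R + 1)) * (R + 1) := by
              gcongr
              linarith
          _ = ε / 4 := by field_simp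
      linarith

end Pool.Agent.H22.PTT
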